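import Mathlib

/-! Finite designs dual to the lifting problem, and explicit examples. -/

namespace Pool.Agent.Lib.MP_a66ead_an.Q4

open Filter Topology

/-- Weights `μ`, coefficients `ψ`, vectors `a` and dual vectors `c`. -/
structure Des {N k : ℕ} (μ : Fin N → ℝ) (ψ : Fin N → Fin N → ℝ) (a c : Fin N → Fin k → ℝ) :
    Prop where
  l0 : ∀ p q, |ψ p q| ≤ μ p
  l1 : ∀ p q, |ψ p q + ∑ i, c p i * a q i| ≤ μ p
  can : ∀ q i, ∑ p, ψ p q * a p i = 0

/-- `D` bounds the value of every design in dimension at most `n`. -/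
def Bd (n : ℕ) (D : ℝ) : Prop :=
  ∀ (N k : ℕ) (μ : Fin N → ℝ) (ψ : Fin N → Fin N → ℝ) (a c : Fin N → Fin k → ℝ), 0 < k → k ≤ n →
    (∀ p, 0 < μ p) → Des μ ψ a c → ∑ q, ∑ i, c q i * a q i ≤ D * ∑ q, μ q

/-- Some design in dimension at most `n` has value at least `D`. -/
def Att (n : ℕ) (D : ℝ) : Prop :=
  ∃ (N k : ℕ) (μ : Fin N → ℝ) (ψ : Fin N → Fin N → ℝ) (a c : Fin N → Fin k → ℝ), 0 < k ∧ k ≤ n ∧
    (∀ p, 0 < μ p) ∧ Des μ ψ a c ∧ 0 < ∑ q, μ q ∧ D * ∑ q, μ q ≤ ∑ q, ∑ i, c q i * a q i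

variable {n : ℕ} {D : ℝ}

theorem Bd.le (h : Bd n D) {N k : ℕ} {μ : Fin N → ℝ} {ψ : Fin N → Fin N → ℝ}
    {a c : Fin N → Fin k → ℝ} (k0 : 0 < k) (hk : k ≤ n) (d : Des μ ψ a c) :
    ∑ q, ∑ i, c q i * a q i ≤ D * ∑ q, μ q := by
  have h1 : Tendsto (fun δ : ℝ => D * ∑ q, (μ q + δ)) (𝓝[>] 0) (𝓝 (D * ∑ q, (μ q + 0))) :=
    (Continuous.tendsto (by fun_prop) 0).mono_left nhdsWithin_le_nhds
  simp only [add_zero] at h1
  refine ge_of_tendsto h1 (eventually_nhdsWithin_of_forall fun δ (hδ : 0 < δ) => ?_)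
  exact h N k _ ψ a c k0 hk
    (fun p => add_pos_of_nonneg_of_pos ((abs_nonneg _).trans (d.l0 p p)) hδ)
    ⟨fun p q => (d.l0 p q).trans (by linarith), fun p q => (d.l1 p q).trans (by linarith), d.can⟩

theorem bd_two (n : ℕ) : Bd n 2 := fun N k μ ψ a c _ _ _ d => by
  rw [Finset.mul_sum]
  exact Finset.sum_le_sum fun q _ => by
    linarith [(abs_le.1 (d.l0 q q)).1, (abs_le.1 (d.l1 q q)).2]

theorem Att.le (h : Att n D) {D' : ℝ} (h' : Bd n D') : D ≤ D' := by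
  obtain ⟨N, k, μ, ψ, a, c, k0, hk, h0, d, h1, h2⟩ := h
  exact le_of_mul_le_mul_right (h2.trans (h' N k μ ψ a c k0 hk h0 d)) h1

theorem Att.mono (h : Att n D) {m : ℕ} (hm : n ≤ m) : Att m D := by
  obtain ⟨N, k, μ, ψ, a, c, k0, hk, h⟩ := h
  exact ⟨N, k, μ, ψ, a, c, k0, hk.trans hm, h⟩

theorem att_of_not (h : ¬ Bd n D) : Att n D := by
  simp only [Bd, not_forall, not_le] at h
  obtain ⟨N, k, μ, ψ, a, c, k0, hk, h0, d, h⟩ := h
  refine ⟨N, k, μ, ψ, a, c, k0, hk, h0, d, ?_, h.le⟩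
  refine (Finset.sum_nonneg fun q _ => (h0 q).le).lt_of_ne fun e => ?_
  have := bd_two n N k μ ψ a c k0 hk h0 d
  rw [← e] at h this
  linarith

theorem att_int {N k : ℕ} (N0 : 0 < N) (k0 : 0 < k) (m v : ℤ) (m0 : 0 < m)
    (ψ : Fin N → Fin N → ℤ) (a c : Fin N → Fin k → ℤ) (l0 : ∀ p q, |ψ p q| ≤ m)
    (l1 : ∀ p q, |ψ p q + ∑ i, c p i * a q i| ≤ m) (can : ∀ q i, ∑ p, ψ p q * a p i = 0)
    (val : ∀ q, ∑ i, c q i * a q i = v) : Att k (v / m) := by
  have m1 : (0 : ℝ) < m := by exact_mod_cast m0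
  have N1 : (0 : ℝ) < N := by exact_mod_cast N0
  have h : ∀ q, ∑ i, (c q i : ℝ) * (a q i : ℝ) = v := fun q => by exact_mod_cast val q
  refine ⟨N, k, fun _ => m, fun p q => ψ p q, fun p i => a p i, fun p i => c p i, k0, le_rfl,
    fun _ => m1, ⟨fun p q => by exact_mod_cast l0 p q, fun p q => by exact_mod_cast l1 p q,
      fun q i => by exact_mod_cast can q i⟩, by simpa using mul_pos N1 m1, le_of_eq ?_⟩
  simp only [h, Finset.sum_const, Finset.card_univ, Fintype.card_fin, nsmul_eq_mul]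
  field_simp

theorem att_one : Att 1 1 := by
  simpa using att_int (N := 1) (k := 1) one_pos one_pos 1 1 one_pos (fun _ _ => 0) (fun _ _ => 1)
    (fun _ _ => 1) (by decide) (by decide) (by decide) (by decide)

/-- Three equiangular lines in the plane. -/
def a2 : Fin 3 → Fin 2 → ℤ := ![![1, 0], ![0, 1], ![-1, -1]]

/-- The dual vectors. -/
def c2 : Fin 3 → Fin 2 → ℤ := ![![2, -1], ![-1, 2], ![-1, -1]]

theorem att_two : Att 2 (4 / 3) := by
  simpa using att_int (N := 3) (k := 2) (by norm_num) (by norm_num) 3 4 (by norm_num)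
    (fun _ _ => -1) a2 (fun p i => 2 * c2 p i) (by decide) (by decide) (by decide) (by decide)

theorem att_four : Att 4 (16 / 9) := by
  simpa using att_int (N := 3 * 3) (k := 2 * 2) (by norm_num) (by norm_num) 9 16 (by norm_num)
    (fun p q => if p = q then -7 else if p.divNat = q.divNat ∨ p.modNat = q.modNat then -1 else 5)
    (fun p i => a2 p.divNat i.divNat * a2 p.modNat i.modNat)
    (fun p i => 4 * (c2 p.divNat i.divNat * c2 p.modNat i.modNat))
    (by decide) (by decide) (by decide) (by decide)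

/-- Ten equiangular lines in dimension five. -/
def a5 : Fin 10 → Fin 5 → ℤ := ![![1, 1, 1, -1, -1], ![1, 1, -1, 1, -1], ![1, 1, -1, -1, 1],
  ![1, 1, -1, -1, -1], ![1, -1, 1, 1, -1], ![1, -1, 1, -1, 1], ![1, -1, 1, -1, -1],
  ![1, -1, -1, 1, 1], ![1, -1, -1, 1, -1], ![1, -1, -1, -1, 1]]

/-- The dual vectors. -/
def c5 (p : Fin 10) (i : Fin 5) : ℤ := a5 p i + ∑ j, a5 p j

theorem att_five : Att 5 2 := by
  have h := att_int (N := 10) (k := 5) (by norm_num) (by norm_num) 3 6 (by norm_num)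
    (fun p q => if p = q then -3 else (∑ i, c5 p i * a5 q i) / 2) a5 c5
    (by decide) (by decide) (by decide) (by decide)
  norm_num at h
  exact h

/-- Rational part of the six diagonals of the icosahedron. -/
def u3 : Fin 6 → Fin 3 → ℤ :=
  ![![0, 1, 0], ![0, -1, 0], ![1, 0, 0], ![-1, 0, 0], ![0, 0, 1], ![0, 0, -1]]

/-- Golden part of the six diagonals of the icosahedron. -/
def v3 : Fin 6 → Fin 3 → ℤ :=
  ![![0, 0, 1], ![0, 0, 1], ![0, 1, 0], ![0, 1, 0], ![1, 0, 0], ![1, 0, 0]]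

/-- Rational part of the scalar products. -/
def e0 (p q : Fin 6) : ℤ := ∑ i, (u3 p i * u3 q i + v3 p i * v3 q i)

/-- Golden part of the scalar products. -/
def e1 (p q : Fin 6) : ℤ := ∑ i, (u3 p i * v3 q i + v3 p i * u3 q i + v3 p i * v3 q i)

theorem att_three : Att 3 ((1 + √5) / 2) := by
  obtain ⟨g, hg⟩ : ∃ g : ℝ, g = (1 + √5) / 2 := ⟨_, rfl⟩
  have h5 : √5 * √5 = 5 := Real.mul_self_sqrt (by norm_num)
  have g0 : 1 / 2 ≤ g := by linarith [Real.sqrt_nonneg 5]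
  have g2 : g ^ 2 = g + 1 := by rw [hg]; linarith
  have g1 : g ≤ 3 := by nlinarith
  have k0 : ∀ p q, e0 p q = if p = q then 2 else 0 := by decide
  have k1 : ∀ p q, e1 p q = 1 ∨ e1 p q = -1 ∧ p ≠ q := by decide
  have k2 : ∀ q i, ∑ p, (e1 p q * u3 p i + e0 p q * -v3 p i) = 0 := by decide
  have k3 : ∀ q i, ∑ p, (e1 p q * v3 p i + e0 p q * -(u3 p i + v3 p i)) = 0 := by decide
  have m : ∀ p q, ∑ i, g * (u3 p i + g * v3 p i) * (u3 q i + g * v3 q i) =
      e1 p q + (e0 p q + e1 p q) * g := fun p q => by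
    simp only [e0, e1, Int.cast_sum, ← Finset.sum_add_distrib, Finset.sum_mul]
    refine Finset.sum_congr rfl fun i _ => ?_
    push_cast
    linear_combination (u3 p i * v3 q i + v3 p i * u3 q i + (g + 1) * v3 p i * v3 q i) * g2
  have m1 : ∀ q, (e1 q q : ℝ) + (e0 q q + e1 q q) * g = g * (g + 2) := fun q => by
    rw [k0, if_pos rfl, (k1 q q).resolve_right fun h => h.2 rfl]
    push_cast
    linarith
  rw [← hg]
  refine ⟨6, 3, fun _ => g + 2, fun p q => e1 p q - e0 p q * g, fun p i => u3 p i + g * v3 p i,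
    fun p i => g * (u3 p i + g * v3 p i), by norm_num, le_rfl, fun _ => by linarith,
    ⟨fun p q => ?_, fun p q => ?_, fun q i => ?_⟩, by simp; linarith, ?_⟩
  · rw [k0, abs_le]
    rcases k1 p q with h | ⟨h, h'⟩ <;> rw [h] <;> split_ifs <;> push_cast <;>
      first | contradiction | constructor <;> linarith
  · rw [m, abs_le]
    rcases k1 p q with h | ⟨h, -⟩ <;> rw [h] <;> push_cast <;> constructor <;> linarith
  · have a2 : ∑ p, ((e1 p q : ℝ) * u3 p i + e0 p q * -v3 p i) = 0 := by exact_mod_cast k2 q i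
    have a3 : ∑ p, ((e1 p q : ℝ) * v3 p i + e0 p q * -(u3 p i + v3 p i)) = 0 := by
      exact_mod_cast k3 q i
    rw [← add_zero (0 : ℝ), ← mul_zero g]
    nth_rw 1 [mul_zero, ← a2, ← a3]
    rw [Finset.mul_sum, ← Finset.sum_add_distrib]
    exact Finset.sum_congr rfl fun p _ => by linear_combination (-e0 p q * v3 p i) * g2
  · simp only [m, m1, Finset.mul_sum, le_refl]

end Pool.Agent.Lib.MP_a66ead_an.Q4
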