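import Pool.Agent.Lib.MP_a66ead_an.Q4.Des

/-! The bound of Koenig and Tomczak-Jaegermann for designs. -/

namespace Pool.Agent.Lib.MP_a66ead_an.Q4

open Finset

variable {N d : ℕ}

theorem welch_aux {I : Type} [Fintype I] (w : Fin N → ℝ) (L : Fin N → I → ℝ) (P : I → I → ℝ)
    (hL : ∀ q α, ∑ β, P α β * L q β = L q α) : (∑ q, w q * ∑ α, L q α * L q α) ^ 2 ≤
      (∑ α, ∑ β, P α β ^ 2) * ∑ q, ∑ r, w q * w r * (∑ α, L q α * L r α) ^ 2 := by
  have h := sum_mul_sq_le_sq_mul_sq (univ : Finset (I × I)) (fun p => P p.1 p.2)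
    (fun p => ∑ q, w q * (L q p.1 * L q p.2))
  have h1 : ∑ p : I × I, P p.1 p.2 * ∑ q, w q * (L q p.1 * L q p.2) =
      ∑ q, w q * ∑ α, L q α * L q α := by
    simp only [mul_sum]
    rw [sum_comm]
    refine sum_congr rfl fun q _ => ?_
    rw [Fintype.sum_prod_type]
    refine sum_congr rfl fun α _ => ?_
    nth_rw 2 [← hL q α]
    simp only [mul_sum]
    exact sum_congr rfl fun β _ => by ring
  have h3 : ∑ p : I × I, (∑ q, w q * (L q p.1 * L q p.2)) ^ 2 =
      ∑ q, ∑ r, w q * w r * (∑ α, L q α * L r α) ^ 2 := by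
    simp only [sq, sum_mul_sum]
    simp only [mul_sum]
    rw [sum_comm]
    refine sum_congr rfl fun q _ => ?_
    rw [sum_comm]
    refine sum_congr rfl fun r _ => ?_
    rw [Fintype.sum_prod_type]
    exact sum_congr rfl fun α _ => sum_congr rfl fun β _ => by ring
  rwa [h1, h3, Fintype.sum_prod_type] at h

/-- A Welch type bound for symmetric matrices. -/
theorem welch (w : Fin N → ℝ) (L : Fin N → Fin d × Fin d → ℝ) (hL : ∀ q α, L q α.swap = L q α) :
    (∑ q, w q * ∑ α, L q α * L q α) ^ 2 ≤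
      d * (d + 1) / 2 * ∑ q, ∑ r, w q * w r * (∑ α, L q α * L r α) ^ 2 := by
  have h := welch_aux w L
    (fun α β => (if α = β then 1 / 2 else 0) + if α.swap = β then 1 / 2 else 0) fun q α => by
      simp only [add_mul, sum_add_distrib, ite_mul, zero_mul, sum_ite_eq, mem_univ, if_true, hL]
      ring
  have e : ∀ α β : Fin d × Fin d,
      ((if α = β then 1 / 2 else 0) + if α.swap = β then 1 / 2 else 0 : ℝ) ^ 2 =
      (if α = β then (if α.1 = α.2 then 1 / 2 else 0) + 1 / 4 else 0) +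
        if α.swap = β then 1 / 4 else 0 := by
    rintro ⟨a, b⟩ β
    by_cases h : a = b
    · subst h
      simp only [Prod.swap_prod_mk]
      split_ifs <;> norm_num
    · by_cases h' : (a, b) = β
      · subst h'
        simp [h, Ne.symm h]
        norm_num
      · simp only [h', if_false]
        split_ifs <;> norm_num
  simp only [e, sum_add_distrib, sum_ite_eq, mem_univ, if_true] at h
  rw [Fintype.sum_prod_type (fun α : Fin d × Fin d => if α.1 = α.2 then (1 / 2 : ℝ) else 0)] at h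
  simp only [sum_ite_eq, mem_univ, if_true, sum_const, card_univ, Fintype.card_prod,
    Fintype.card_fin, nsmul_eq_mul, Nat.cast_mul] at h
  exact h.trans_eq (by ring)

/-- The inequality for unit vectors `x` with weights `w`. -/
theorem sphere (w : Fin N → ℝ) (x : Fin N → Fin d → ℝ) (w0 : ∀ q, 0 ≤ w q)
    (hx : ∀ q, w q = 0 ∨ ∑ i, x q i * x q i = 1) {φ : ℝ} (φ0 : 0 < φ) (hφ : d * φ ^ 2 ≤ 1) :
    (1 - φ) ^ 2 * (∑ q, w q) ^ 2 ≤
      d * (d + 1) / 2 * ∑ q, ∑ r, w q * w r * (|∑ i, x q i * x r i| - φ) ^ 2 := by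
  obtain ⟨γ, hγ⟩ : ∃ γ : ℝ, d * γ ^ 2 - 2 * γ = -φ ^ 2 := by
    have s0 := Real.sqrt_nonneg (1 - d * φ ^ 2)
    have s1 := Real.mul_self_sqrt (sub_nonneg.2 hφ)
    refine ⟨φ ^ 2 / (1 + √(1 - d * φ ^ 2)), ?_⟩
    field_simp
    linear_combination s1
  have e : ∀ q r, ∑ α : Fin d × Fin d, (x q α.1 * x q α.2 - if α.1 = α.2 then γ else 0) *
      (x r α.1 * x r α.2 - if α.1 = α.2 then γ else 0) = (∑ i, x q i * x r i) ^ 2 -
      γ * ∑ i, x q i * x q i - γ * ∑ i, x r i * x r i + d * γ ^ 2 := fun q r => by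
    have e1 : ∀ a b : Fin d, (x q a * x q b - if a = b then γ else 0) *
        (x r a * x r b - if a = b then γ else 0) = x q a * x r a * (x q b * x r b) +
        if a = b then γ ^ 2 - γ * (x q a * x q a) - γ * (x r a * x r a) else 0 := fun a b => by
      split_ifs with h
      · rw [← h]
        ring
      · ring
    simp only [Fintype.sum_prod_type, e1, sum_add_distrib, sum_sub_distrib, sum_ite_eq, mem_univ,
      if_true, ← mul_sum, ← sum_mul, sum_const, card_univ, Fintype.card_fin, nsmul_eq_mul]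
    ring
  have h := welch w (fun q α => x q α.1 * x q α.2 - if α.1 = α.2 then γ else 0) fun q α => by
    simp only [Prod.fst_swap, Prod.snd_swap, mul_comm, eq_comm]
  simp only [e] at h
  have h1 : ∑ q, w q * ((∑ i, x q i * x q i) ^ 2 - γ * ∑ i, x q i * x q i -
      γ * ∑ i, x q i * x q i + d * γ ^ 2) = (1 - φ ^ 2) * ∑ q, w q := by
    rw [mul_sum]
    refine sum_congr rfl fun q _ => ?_
    rcases hx q with h | h <;> rw [h]
    · ring
    · linear_combination w q * hγ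
  have h2 : ∀ q r, w q * w r * ((∑ i, x q i * x r i) ^ 2 - γ * ∑ i, x q i * x q i -
      γ * ∑ i, x r i * x r i + d * γ ^ 2) ^ 2 ≤
      (1 + φ) ^ 2 * (w q * w r * (|∑ i, x q i * x r i| - φ) ^ 2) := fun q r => by
    rcases hx q with hq | hq
    · simp [hq]
    rcases hx r with hr | hr
    · simp [hr]
    have c := sum_mul_sq_le_sq_mul_sq univ (x q) (x r)
    simp only [sq (x _ _), hq, hr, mul_one, sq_le_one_iff_abs_le_one] at c
    have c0 := abs_nonneg (∑ i, x q i * x r i)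
    rw [hq, hr, ← sq_abs (∑ i, _), mul_left_comm]
    generalize |∑ i, x q i * x r i| = τ at *
    refine mul_le_mul_of_nonneg_left ?_ (mul_nonneg (w0 q) (w0 r))
    rw [show τ ^ 2 - γ * 1 - γ * 1 + d * γ ^ 2 = (τ + φ) * (τ - φ) by linarith, mul_pow]
    exact mul_le_mul_of_nonneg_right (pow_le_pow_left₀ (by linarith) (by linarith) 2)
      (sq_nonneg _)
  have h3 := mul_le_mul_of_nonneg_left (sum_le_sum fun q (_ : q ∈ univ) =>
    sum_le_sum fun r (_ : r ∈ univ) => h2 q r) (show (0 : ℝ) ≤ d * (d + 1) / 2 by positivity)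
  simp only [← mul_sum _ _ ((1 + φ) ^ 2)] at h3
  rw [h1] at h
  refine le_of_mul_le_mul_left ?_ (show 0 < (1 + φ) ^ 2 by positivity)
  linarith

/-- The inequality for tight frames `u` with weights `t`. -/
theorem frame (t : Fin N → ℝ) (u : Fin N → Fin d → ℝ) (t0 : ∀ q, 0 ≤ t q)
    (hu : ∀ i j, ∑ q, u q i * u q j = if i = j then 1 else 0) {n φ : ℝ} (hn : d ≤ n) (φ0 : 0 < φ)
    (h1 : n * φ ^ 2 ≤ 1) (h2 : (1 - φ) ^ 2 ≤ n * (n + 1) / 2 * φ ^ 2) :
    n * (n + 1) * φ * ∑ q, ∑ r, t q * t r * |∑ i, u q i * u r i| ≤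
      (n * (n + 1) / 2 + n * (n * (n + 1) / 2 * φ ^ 2 - (1 - φ) ^ 2)) * ∑ q, t q ^ 2 := by
  obtain ⟨ρ, ρ0, ρ1⟩ : ∃ ρ : Fin N → ℝ, (∀ q, 0 ≤ ρ q) ∧ ∀ q, ρ q ^ 2 = ∑ i, u q i * u q i :=
    ⟨fun q => √(∑ i, u q i * u q i), fun _ => Real.sqrt_nonneg _,
      fun q => Real.sq_sqrt (sum_nonneg fun _ _ => mul_self_nonneg _)⟩
  obtain ⟨x, hx, x1⟩ : ∃ x : Fin N → Fin d → ℝ, (∀ q i, u q i = ρ q * x q i) ∧
      ∀ q, ρ q = 0 ∧ ∑ i, x q i * x q i = 0 ∨ ∑ i, x q i * x q i = 1 := by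
    refine ⟨fun q i => (ρ q)⁻¹ * u q i, fun q i => ?_,
      fun q => (em (ρ q = 0)).imp (fun h => ⟨h, by simp [h]⟩) fun h => ?_⟩
    · by_cases h : ρ q = 0
      · have := (sum_eq_zero_iff_of_nonneg fun _ _ => mul_self_nonneg _).1
          ((ρ1 q).symm.trans (by rw [h]; simp)) i (mem_univ _)
        rw [mul_self_eq_zero.1 this, h, zero_mul]
      · rw [mul_inv_cancel_left₀ h]
    · simp only [mul_mul_mul_comm _ (u _ _), ← mul_sum, ← ρ1]
      field_simp
  have d0 : (0 : ℝ) ≤ d := Nat.cast_nonneg d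
  have h := sphere (fun q => t q * ρ q) x (fun q => mul_nonneg (t0 q) (ρ0 q))
    (fun q => (x1 q).imp_left fun h => by rw [h.1, mul_zero]) φ0
    ((mul_le_mul_of_nonneg_right hn (sq_nonneg _)).trans h1)
  obtain ⟨τ, hτ⟩ : ∃ τ : Fin N → Fin N → ℝ, ∀ q r, ∑ i, x q i * x r i = τ q r := ⟨_, fun _ _ => rfl⟩
  have τs : ∀ q r, τ q r = τ r q := fun q r => by simp only [← hτ, mul_comm]
  have e1 : ∀ q r, ∑ i, u q i * u r i = ρ q * ρ r * τ q r := fun q r => by
    simp only [hx, mul_mul_mul_comm _ (x _ _), ← mul_sum, hτ]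
  have e2 : ∀ q, ∑ r, (ρ r * τ q r) ^ 2 ≤ 1 := fun q => by
    have : ∑ r, (ρ r * τ q r) ^ 2 = τ q q := by
      have e : ∀ r, ρ r * τ q r = ∑ i, x q i * u r i := fun r => by
        simp only [← hτ, hx, mul_sum, mul_left_comm]
      simp only [e, sq, sum_mul_sum, mul_mul_mul_comm _ (u _ _)]
      rw [sum_comm]
      refine (sum_congr rfl fun i _ => ?_).trans (hτ q q)
      rw [sum_comm]
      simp only [← mul_sum, hu, mul_ite, mul_one, mul_zero, sum_ite_eq, mem_univ, if_true]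
    rw [this, ← hτ]
    exact (x1 q).elim (fun h => h.2.trans_le zero_le_one) le_of_eq
  have e3 : ∑ q, ∑ r, t q ^ 2 * (ρ r * τ q r) ^ 2 ≤ ∑ q, t q ^ 2 := sum_le_sum fun q _ => by
    rw [← mul_sum]
    exact mul_le_of_le_one_right (sq_nonneg _) (e2 q)
  have hA : 2 * ∑ q, ∑ r, t q * ρ q * (t r * ρ r) * τ q r ^ 2 ≤
      ∑ q, ∑ r, t q ^ 2 * (ρ r * τ q r) ^ 2 + ∑ q, ∑ r, t q ^ 2 * (ρ r * τ q r) ^ 2 := by
    nth_rw 3 [sum_comm]
    simp only [mul_sum, ← sum_add_distrib]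
    refine sum_le_sum fun q _ => sum_le_sum fun r _ => ?_
    rw [τs r q]
    linarith [sq_nonneg ((t q * ρ r - t r * ρ q) * τ q r)]
  have hB := sum_mul_sq_le_sq_mul_sq univ t ρ
  have e4 : ∑ q, ρ q ^ 2 = d := by
    simp only [ρ1]
    rw [sum_comm]
    simp [hu]
  have e5 : ∑ q, ∑ r, t q * ρ q * (t r * ρ r) * (|τ q r| - φ) ^ 2 =
      ∑ q, ∑ r, t q * ρ q * (t r * ρ r) * τ q r ^ 2 -
        2 * φ * ∑ q, ∑ r, t q * t r * |∑ i, u q i * u r i| + φ ^ 2 * (∑ q, t q * ρ q) ^ 2 := by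
    rw [sq (∑ q, _), sum_mul_sum]
    simp only [mul_sum, ← sum_add_distrib, ← sum_sub_distrib]
    refine sum_congr rfl fun q _ => sum_congr rfl fun r _ => ?_
    rw [e1, abs_mul, abs_of_nonneg (mul_nonneg (ρ0 q) (ρ0 r)), ← sq_abs (τ q r)]
    ring
  have e6 : 0 ≤ ∑ q, ∑ r, t q * ρ q * (t r * ρ r) * (|τ q r| - φ) ^ 2 :=
    sum_nonneg fun q _ => sum_nonneg fun r _ => mul_nonneg
      (mul_nonneg (mul_nonneg (t0 q) (ρ0 q)) (mul_nonneg (t0 r) (ρ0 r))) (sq_nonneg _)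
  have m0 : 0 ≤ ∑ q, t q ^ 2 := sum_nonneg fun _ _ => sq_nonneg _
  have n0 := d0.trans hn
  simp only [hτ] at h
  have k1 := h.trans (mul_le_mul_of_nonneg_right
    (show (d : ℝ) * (d + 1) / 2 ≤ n * (n + 1) / 2 by gcongr) e6)
  have k2 := mul_le_mul_of_nonneg_left (hB.trans (mul_le_mul_of_nonneg_left (e4.trans_le hn) m0))
    (sub_nonneg.2 h2)
  have k3 := mul_le_mul_of_nonneg_left (hA.trans (add_le_add e3 e3))
    (show 0 ≤ n * (n + 1) / 2 by positivity)
  rw [e5] at k1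
  linarith

/-- The bound for designs. -/
theorem bd_of {n : ℕ} {φ D : ℝ} (φ0 : 0 < φ) (h1 : n * φ ^ 2 ≤ 1)
    (h2 : (1 - φ) ^ 2 ≤ n * (n + 1) / 2 * φ ^ 2)
    (hD : n * (n + 1) / 2 + n * (n * (n + 1) / 2 * φ ^ 2 - (1 - φ) ^ 2) ≤ n * (n + 1) * φ * D) :
    Bd n D := by
  intro N k μ ψ a c k0 hk μ0 h
  obtain ⟨t, t0, t1⟩ : ∃ t : Fin N → ℝ, (∀ q, 0 < t q) ∧ ∀ q, t q ^ 2 = μ q :=
    ⟨fun q => √(μ q), fun q => Real.sqrt_pos.2 (μ0 q), fun q => Real.sq_sqrt (μ0 q).le⟩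
  let α : Fin k → EuclideanSpace ℝ (Fin N) := fun i => WithLp.toLp 2 fun q => t q * a q i
  let V := Submodule.span ℝ (Set.range α)
  let b := stdOrthonormalBasis ℝ V
  have hd : Module.finrank ℝ V ≤ n :=
    ((finrank_range_le_card α).trans_eq (Fintype.card_fin k)).trans hk
  obtain ⟨u, hu⟩ : ∃ u : Fin N → Fin (Module.finrank ℝ V) → ℝ,
      ∀ q i, u q i = (b i).1 q := ⟨_, fun _ _ => rfl⟩
  have u1 : ∀ i j, ∑ q, u q i * u q j = if i = j then 1 else 0 := fun i j => by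
    rw [← orthonormal_iff_ite.1 b.orthonormal i j, Submodule.coe_inner, PiLp.inner_apply]
    simp only [hu, Real.inner_apply]
  have u2 : ∀ i q, t q * a q i = ∑ r, (∑ j, u q j * u r j) * (t r * a r i) := fun i q => by
    have e := congrArg (fun v : V => v.1 q)
      (b.sum_repr' ⟨α i, Submodule.subset_span ⟨i, rfl⟩⟩).symm
    simp only [Submodule.coe_sum, Submodule.coe_smul, WithLp.ofLp_sum, WithLp.ofLp_smul,
      Finset.sum_apply, Pi.smul_apply, smul_eq_mul, Submodule.coe_inner, PiLp.inner_apply,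
      Real.inner_apply, ← hu, α, sum_mul] at e
    rw [e, sum_comm]
    simp only [sum_mul]
    exact sum_congr rfl fun _ _ => sum_congr rfl fun _ _ => by ring
  have u3 : ∀ r j, ∑ q, (t q)⁻¹ * ψ q r * u q j = 0 := fun r j => by
    have : ∀ v ∈ V, ∑ q, (t q)⁻¹ * ψ q r * v q = 0 := fun v hv => by
      induction hv using Submodule.span_induction with
      | mem v hv =>
        obtain ⟨i, rfl⟩ := hv
        refine (sum_congr rfl fun q _ => ?_).trans (h.can r i)
        have := (t0 q).ne'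
        simp only [α]
        field_simp
      | zero => simp
      | add v w _ _ hv hw => simp only [PiLp.add_apply, mul_add, sum_add_distrib, hv, hw, add_zero]
      | smul s v _ hv =>
        simp only [PiLp.smul_apply, smul_eq_mul, mul_left_comm _ s, ← mul_sum, hv, mul_zero]
    simpa only [hu] using this _ (b j).2
  have e1 : ∀ q, ∑ i, c q i * a q i =
      ∑ r, (t q)⁻¹ * t r * (∑ j, u q j * u r j) * ∑ i, c q i * a r i := fun q => by
    simp only [mul_sum _ (fun i => c q i * _)]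
    rw [sum_comm]
    refine sum_congr rfl fun i _ => ?_
    rw [← inv_mul_cancel_left₀ (t0 q).ne' (a q i), u2, mul_sum, mul_sum]
    exact sum_congr rfl fun _ _ => by ring
  have e2 : ∑ q, ∑ r, (t q)⁻¹ * t r * (∑ j, u q j * u r j) * ψ q r = 0 := by
    rw [sum_comm]
    refine sum_eq_zero fun r _ => ?_
    simp only [mul_sum, sum_mul]
    rw [sum_comm]
    refine sum_eq_zero fun j _ => ?_
    rw [← mul_zero (t r * u r j), ← u3 r j, mul_sum]
    exact sum_congr rfl fun _ _ => by ring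
  have e3 : ∑ q, ∑ i, c q i * a q i ≤ ∑ q, ∑ r, t q * t r * |∑ j, u q j * u r j| := by
    rw [← zero_add (∑ q, ∑ i, c q i * a q i), ← e2, sum_congr rfl fun q _ => e1 q]
    simp only [← sum_add_distrib, ← mul_add]
    refine sum_le_sum fun q _ => sum_le_sum fun r _ => (le_abs_self _).trans ?_
    have := t0 q
    have := t0 r
    rw [abs_mul, abs_mul, abs_of_pos (mul_pos (inv_pos.2 (t0 q)) (t0 r))]
    refine (mul_le_mul_of_nonneg_left (h.l1 q r) (by positivity)).trans_eq ?_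
    rw [← t1]
    field_simp
  have e4 := frame t u (fun q => (t0 q).le) u1 (Nat.cast_le.2 hd) φ0 h1 h2
  have n0 : (0 : ℝ) < n := Nat.cast_pos.2 (k0.trans_le hk)
  have e5 := mul_le_mul_of_nonneg_right hD (sum_nonneg fun q (_ : q ∈ univ) => (μ0 q).le)
  simp only [t1] at e4
  refine e3.trans (le_of_mul_le_mul_left ?_ (show 0 < n * (n + 1) * φ by positivity))
  linarith

theorem bd1 : Bd 1 1 := bd_of one_pos (by norm_num) (by norm_num) (by norm_num)

theorem bd2 : Bd 2 (4 / 3) :=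
  bd_of (φ := 1 / 2) (by norm_num) (by norm_num) (by norm_num) (by norm_num)

theorem bd3 : Bd 3 ((1 + √5) / 2) := by
  have h5 : √5 * √5 = 5 := Real.mul_self_sqrt (by norm_num)
  have h2 : 2 ≤ √5 := Real.le_sqrt_of_sq_le (by norm_num)
  exact bd_of (φ := √5 / 5) (by positivity) (by push_cast; linarith) (by push_cast; linarith)
    (by push_cast; linarith)

theorem bd4 : Bd 4 (187 / 100) :=
  bd_of (φ := 2 / 5) (by norm_num) (by norm_num) (by norm_num) (by norm_num)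

end Pool.Agent.Lib.MP_a66ead_an.Q4
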