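import Pool.Agent.Lib.MP_a66ead_an.Q3.Up
import Pool.Agent.Lib.MP_a66ead_an.Q4.Des

/-! A bound for designs bounds the distance to dual spaces. -/

set_option maxSynthPendingDepth 3

namespace Pool.Agent.Lib.MP_a66ead_an.Q4

open Metric Q3

variable {Y : Type*} [NormedAddCommGroup Y] [NormedSpace ℝ Y] {D : ℝ}

theorem exists_lin {Q : Type*} [AddCommGroup Q] [Module ℝ Q] [FiniteDimensional ℝ Q] {N : ℕ}
    (h0 : 0 < Module.finrank ℝ Q) (hD : Bd (Module.finrank ℝ Q) D) (D0 : 0 ≤ D)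
    (s : Q →ₗ[ℝ] StrongDual ℝ (StrongDual ℝ Y)) (q : Fin N → Q)
    (Φ : Fin N → StrongDual ℝ (StrongDual ℝ Y)) (x : Fin N → Y)
    (hx : ∀ j, NormedSpace.inclusionInDoubleDual ℝ Y (x j) = Φ j - s (q j)) {ρ r : ℝ}
    (ρ0 : 0 ≤ ρ) (hr : D * ρ < r) (h : ∀ j, ‖Φ j‖ ≤ ρ) :
    ∃ u : Q →ₗ[ℝ] Y, ∀ j, ‖s (q j) + NormedSpace.inclusionInDoubleDual ℝ Y (u (q j))‖ < r := by
  classical
  have r0 := (mul_nonneg D0 ρ0).trans_lt hr
  by_contra hc
  let L : (Q →ₗ[ℝ] Y) →ₗ[ℝ] Fin N → StrongDual ℝ (StrongDual ℝ Y) := LinearMap.pi fun j =>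
    (NormedSpace.inclusionInDoubleDual ℝ Y).toLinearMap ∘ₗ LinearMap.applyₗ (q j)
  obtain ⟨f, c, f1, f2⟩ := geometric_hahn_banach_open
    (convex_ball (0 : Fin N → StrongDual ℝ (StrongDual ℝ Y)) r) isOpen_ball
    ((LinearMap.range L).convex.translate fun j => s (q j)) (Set.disjoint_left.2 (by
      rintro _ ha ⟨_, ⟨u, rfl⟩, rfl⟩
      exact hc ⟨u, fun j => (norm_le_pi_norm _ j).trans_lt (mem_ball_zero_iff.1 ha)⟩))
  have f3 : ∀ u, c ≤ f (fun j => s (q j)) + f (L u) := fun u =>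
    map_add f _ _ ▸ f2 _ ⟨_, ⟨u, rfl⟩, rfl⟩
  have f4 : ∀ u, f (L u) = 0 := fun u => by
    by_contra h1
    have := f3 (((c - f (fun j => s (q j)) - 1) / f (L u)) • u)
    rw [map_smul, map_smul, smul_eq_mul, div_mul_cancel₀ _ h1] at this
    linarith
  obtain ⟨F, hF⟩ : ∃ F : Fin N → StrongDual ℝ (StrongDual ℝ (StrongDual ℝ Y)),
      ∀ a, f a = ∑ j, F j (a j) :=
    ⟨fun j => f.comp (ContinuousLinearMap.single ℝ (fun _ => _) j), fun a => by
      conv_lhs => rw [← Finset.univ_sum_single a, map_sum]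
      rfl⟩
  obtain ⟨g, hg⟩ : ∃ g : Fin N → StrongDual ℝ Y,
      ∀ j y, g j y = F j (NormedSpace.inclusionInDoubleDual ℝ Y y) :=
    ⟨fun j => (F j).comp (NormedSpace.inclusionInDoubleDual ℝ Y), fun _ _ => rfl⟩
  have g0 : ∀ j, ‖g j‖ ≤ ‖F j‖ := fun j =>
    ContinuousLinearMap.opNorm_le_bound _ (norm_nonneg _) fun y => by
      rw [hg, ← norm_incl y]
      exact (F j).le_opNorm _
  let b := Module.finBasis ℝ Q
  have h1 : ∀ i, ∑ j, b.repr (q j) i • g j = 0 := fun i => ContinuousLinearMap.ext fun v => by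
    simpa [hF, hg, L] using f4 ((b.coord i).smulRight v)
  have h2 : ∀ p j, ∑ i, (F p (s (b i)) - s (b i) (g p)) * b.repr (q j) i =
      F p (s (q j)) - s (q j) (g p) := fun p j => by
    conv_rhs => rw [← b.sum_repr (q j)]
    simp only [map_sum, map_smul, sum_apply, smul_apply, smul_eq_mul, ← Finset.sum_sub_distrib]
    exact Finset.sum_congr rfl fun i _ => by ring
  have g1 : ∑ j, s (q j) (g j) = 0 := by
    calc ∑ j, s (q j) (g j) = ∑ j, ∑ i, s (b i) (b.repr (q j) i • g j) :=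
          Finset.sum_congr rfl fun j _ => by
            conv_lhs => rw [← b.sum_repr (q j)]
            simp only [map_sum, map_smul, sum_apply, smul_apply]
      _ = 0 := by
        rw [Finset.sum_comm]
        simp only [← map_sum, h1, map_zero, Finset.sum_const_zero]
  have key := hD.le (μ := fun p => ρ * ‖F p‖) (ψ := fun p j => Φ j (g p))
    (a := fun j i => b.repr (q j) i) (c := fun p i => F p (s (b i)) - s (b i) (g p)) h0 le_rfl
    ⟨fun p j => ((Φ j).le_opNorm _).trans (mul_le_mul (h j) (g0 p) (norm_nonneg _) ρ0),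
      fun p j => by
        have e1 : g p (x j) = Φ j (g p) - s (q j) (g p) := congrArg (· (g p)) (hx j)
        have e2 := (F p).le_opNorm (Φ j)
        rw [hg, hx, map_sub] at e1
        rw [h2, show Φ j (g p) + (F p (s (q j)) - s (q j) (g p)) = F p (Φ j) by linarith, mul_comm]
        exact e2.trans (mul_le_mul_of_nonneg_left (h j) (norm_nonneg _)),
      fun j i => by simpa [mul_comm] using congrArg (Φ j) (h1 i)⟩
  choose a a1 a2 using fun j => near_norming (F j) ((div_lt_one r0).2 hr)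
  have h3 := f1 (r • a) (mem_ball_zero_iff.2 (by
    rw [norm_smul, Real.norm_of_nonneg r0.le]
    exact mul_lt_of_lt_one_right r0 ((pi_norm_lt_iff one_pos).2 a1)))
  have h4 := f3 0
  have h5 := Finset.sum_le_sum fun j (_ : j ∈ Finset.univ) =>
    (div_le_iff₀' r0).1 ((div_mul_eq_mul_div _ _ _).symm.trans_le (a2 j))
  simp only [h2, Finset.sum_sub_distrib, g1, ← hF, Finset.mul_sum, ← mul_assoc] at key
  rw [map_smul, smul_eq_mul, hF, Finset.mul_sum] at h3
  rw [map_zero, map_zero] at h4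
  linarith

variable {S : Submodule ℝ (StrongDual ℝ (StrongDual ℝ Y))}

/-- A linear lifting of the quotient of norm at most `D + ε`. -/
theorem exists_lift [CompleteSpace Y]
    (hS : S = LinearMap.range (NormedSpace.inclusionInDoubleDual ℝ Y).toLinearMap)
    [FiniteDimensional ℝ (StrongDual ℝ (StrongDual ℝ Y) ⧸ S)]
    (h0 : 0 < Module.finrank ℝ (StrongDual ℝ (StrongDual ℝ Y) ⧸ S))
    (hD : Bd (Module.finrank ℝ (StrongDual ℝ (StrongDual ℝ Y) ⧸ S)) D) (D0 : 0 ≤ D) {ε : ℝ}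
    (hε : 0 < ε) : ∃ l : (StrongDual ℝ (StrongDual ℝ Y) ⧸ S) →ₗ[ℝ] StrongDual ℝ (StrongDual ℝ Y),
      (∀ q, Submodule.Quotient.mk (l q) = q) ∧ ∀ q, ‖l q‖ ≤ (D + ε) * ‖q‖ := by
  have : IsClosed (S : Set (StrongDual ℝ (StrongDual ℝ Y))) :=
    hS ▸ isClosed_range_li (NormedSpace.inclusionInDoubleDual ℝ Y).toLinearMap norm_incl
  have := FiniteDimensional.proper_real (StrongDual ℝ (StrongDual ℝ Y) ⧸ S)
  obtain ⟨η, hη⟩ : ∃ η, η = ε / (2 * D + 1 + ε) := ⟨_, rfl⟩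
  have η0 : 0 < η := by rw [hη]; positivity
  have η1 : η * (2 * D + 1 + ε) = ε := by rw [hη]; field_simp
  obtain ⟨s, hs⟩ := S.mkQ.exists_rightInverse_of_surjective S.range_mkQ
  have hs' : ∀ q, Submodule.Quotient.mk (s q) = q := LinearMap.congr_fun hs
  obtain ⟨t, t1, t2, t3⟩ := finite_cover_balls_of_compact
    (isCompact_closedBall (0 : StrongDual ℝ (StrongDual ℝ Y) ⧸ S) 1) η0
  have := t2.to_subtype
  obtain ⟨N, ⟨e⟩⟩ := Finite.exists_equiv_fin t
  choose Φ Φ1 Φ2 using fun j : Fin N => Submodule.Quotient.norm_mk_lt (e.symm j).1 η0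
  have Φ3 : ∀ j, ‖Φ j‖ ≤ 1 + η := fun j => by
    linarith [Φ2 j, mem_closedBall_zero_iff.1 (t1 (e.symm j).2)]
  have hx : ∀ j, ∃ x, NormedSpace.inclusionInDoubleDual ℝ Y x = Φ j - s (e.symm j) := fun j =>
    hS.le ((Submodule.Quotient.eq S).1 ((Φ1 j).trans (hs' _).symm))
  choose x hx using hx
  obtain ⟨u, hu⟩ := exists_lin h0 hD D0 s (fun j => (e.symm j).1) Φ x hx (ρ := 1 + η)
    (r := D * (1 + η) + η) (by positivity) (by linarith) Φ3
  obtain ⟨l, hl⟩ : ∃ l : (StrongDual ℝ (StrongDual ℝ Y) ⧸ S) →L[ℝ]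
      StrongDual ℝ (StrongDual ℝ Y),
      ∀ q, l q = s q + NormedSpace.inclusionInDoubleDual ℝ Y (u q) :=
    ⟨LinearMap.toContinuousLinearMap
      (s + (NormedSpace.inclusionInDoubleDual ℝ Y).toLinearMap ∘ₗ u), fun _ => rfl⟩
  have l2 : ‖l‖ ≤ D * (1 + η) + η + ‖l‖ * η :=
    ContinuousLinearMap.opNorm_le_of_unit_norm (by positivity) fun q hq => by
      obtain ⟨j, hj, h⟩ := Set.mem_iUnion₂.1 (t3 (mem_closedBall_zero_iff.2 hq.le))
      have h1 := norm_add_le (l j) (l (q - j))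
      have h2 := (l.le_opNorm (q - j)).trans
        (mul_le_mul_of_nonneg_left (mem_ball_iff_norm.1 h).le (norm_nonneg _))
      have h3 := hu (e ⟨j, hj⟩)
      rw [e.symm_apply_apply, ← hl] at h3
      rw [← map_add, add_sub_cancel] at h1
      linarith
  refine ⟨l, fun q => ?_, fun q => (l.le_opNorm q).trans
    (mul_le_mul_of_nonneg_right ?_ (norm_nonneg _))⟩
  · rw [ContinuousLinearMap.coe_coe, hl, Submodule.Quotient.mk_add, hs', mk_incl hS, add_zero]
  · have : η < 1 := by nlinarith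
    nlinarith

theorem up (hS : S = LinearMap.range (NormedSpace.inclusionInDoubleDual ℝ Y).toLinearMap)
    [FiniteDimensional ℝ (StrongDual ℝ (StrongDual ℝ Y) ⧸ S)] {κ : ℝ} (hκ : 0 ≤ κ)
    (l : (StrongDual ℝ (StrongDual ℝ Y) ⧸ S) →ₗ[ℝ] StrongDual ℝ (StrongDual ℝ Y))
    (l1 : ∀ q, Submodule.Quotient.mk (l q) = q) (l2 : ∀ q, ‖l q‖ ≤ κ * ‖q‖) :
    ∃ (W : Submodule ℝ (StrongDual ℝ Y)) (T : Y ≃L[ℝ] StrongDual ℝ W), CompleteSpace W ∧
      (∀ y, ‖T y‖ ≤ 1 * ‖y‖) ∧ ∀ y, ‖T.symm y‖ ≤ (1 + κ) * ‖y‖ := by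
  let b := Module.finBasis ℝ (StrongDual ℝ (StrongDual ℝ Y) ⧸ S)
  let W : Submodule ℝ (StrongDual ℝ Y) := ⨅ i, LinearMap.ker (l (b i)).toLinearMap
  have w1 : ∀ q (w : W), l q w = 0 := fun q w => by
    have h : ∀ i, l (b i) w = 0 := (Submodule.mem_iInf _).1 w.2
    rw [← b.sum_repr q]
    simp only [map_sum, map_smul, sum_apply, smul_apply, h, smul_zero, Finset.sum_const_zero]
  let T : Y →ₗ[ℝ] StrongDual ℝ W :=
    { toFun := fun y => (NormedSpace.inclusionInDoubleDual ℝ Y y).comp W.subtypeL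
      map_add' := fun _ _ => by rw [map_add]; rfl
      map_smul' := fun _ _ => by rw [map_smul]; rfl }
  have t1 : ∀ y, ‖T y‖ ≤ 1 * ‖y‖ := fun y =>
    ContinuousLinearMap.opNorm_le_bound _ (by positivity) fun w => by
      rw [one_mul, mul_comm]
      exact w.1.le_opNorm y
  have t2 : ∀ y, ‖y‖ ≤ (1 + κ) * ‖T y‖ := fun y => by
    obtain ⟨Ψ, h1, h2⟩ := exists_extension_norm_eq W (T y)
    obtain ⟨c, hc⟩ := (Submodule.mem_span_range_iff_exists_fun ℝ).1 (mem_span_of_iInf_ker_le_ker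
      (L := fun i => (l (b i)).toLinearMap)
      (K := (Ψ - NormedSpace.inclusionInDoubleDual ℝ Y y).toLinearMap)
      fun w hw => sub_eq_zero.2 (h1 ⟨w, hw⟩))
    have h3 : l (∑ i, c i • b i) = Ψ - NormedSpace.inclusionInDoubleDual ℝ Y y :=
      ContinuousLinearMap.ext fun w => by
        simpa [map_sum, map_smul] using LinearMap.congr_fun hc w
    have h4 : ∑ i, c i • b i = Submodule.Quotient.mk Ψ := by
      rw [← l1 (∑ i, c i • b i), h3, Submodule.Quotient.mk_sub, mk_incl hS, sub_zero]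
    have h5 := norm_sub_le Ψ (l (∑ i, c i • b i))
    have h6 := (l2 (∑ i, c i • b i)).trans (mul_le_mul_of_nonneg_left
      (h4 ▸ Submodule.Quotient.norm_mk_le S Ψ) hκ)
    rw [h3, sub_sub_cancel, norm_incl, ← h3] at h5
    rw [← h2]
    linarith
  have t3 : Function.Surjective T := fun ψ => by
    obtain ⟨Ψ, h1, -⟩ := exists_extension_norm_eq W ψ
    obtain ⟨y, hy⟩ := hS.le ((Submodule.Quotient.eq S).1 (l1 (Submodule.Quotient.mk Ψ)).symm)
    refine ⟨y, ContinuousLinearMap.ext fun w => ?_⟩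
    have h2 := congrArg (· w.1) hy
    simp only [sub_apply, w1, sub_zero, h1] at h2
    exact h2
  let e := LinearEquiv.ofBijective T ⟨(injective_iff_map_eq_zero T).2 fun y h =>
    norm_le_zero_iff.1 (by simpa [h] using t2 y), t3⟩
  have t4 : ∀ y, ‖e.symm y‖ ≤ (1 + κ) * ‖y‖ := fun y =>
    (t2 _).trans_eq (congrArg (fun z => (1 + κ) * ‖z‖) (e.apply_symm_apply y))
  have hW : IsClosed (W : Set (StrongDual ℝ Y)) := by
    rw [Submodule.coe_iInf]
    exact isClosed_iInter fun i => (l (b i)).isClosed_ker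
  exact ⟨W, e.toContinuousLinearEquivOfBounds 1 (1 + κ) t1 t4, hW.completeSpace_coe, t1, t4⟩

/-- The codimension in the bidual is an isomorphic invariant. -/
theorem indep_of_equiv {X : Type*} [NormedAddCommGroup X] [NormedSpace ℝ X] (e : X ≃L[ℝ] Y)
    {n : ℕ} (h : ∃ φ : Fin n → StrongDual ℝ (StrongDual ℝ X), ∀ (c : Fin n → ℝ) (x : X),
      (∀ f : StrongDual ℝ X, ∑ i, c i * φ i f = f x) → c = 0) :
    ∃ φ : Fin n → StrongDual ℝ (StrongDual ℝ Y), ∀ (c : Fin n → ℝ) (x : Y),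
      (∀ f : StrongDual ℝ Y, ∑ i, c i * φ i f = f x) → c = 0 := by
  obtain ⟨φ, h⟩ := h
  refine ⟨fun i => (e.arrowCongr (.refl ℝ ℝ)).arrowCongr (.refl ℝ ℝ) (φ i),
    fun c y hy => h c (e.symm y) fun f => ?_⟩
  have := hy (e.arrowCongr (.refl ℝ ℝ) f)
  simp only [ContinuousLinearEquiv.arrowCongr_apply (e.arrowCongr (.refl ℝ ℝ)),
    ContinuousLinearEquiv.symm_apply_apply, ContinuousLinearEquiv.refl_apply] at this
  exact this

end Pool.Agent.Lib.MP_a66ead_an.Q4
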