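import Pool.Agent.Lib.MP_a66ead_an.Q3.Sys
import Pool.Agent.Lib.MP_a66ead_an.Q4.Des

/-! A design gives a norm far from all dual spaces. -/

set_option maxSynthPendingDepth 3

namespace Pool.Agent.Lib.MP_a66ead_an.Q4

open Filter Topology Q3

universe v

variable {X : Type*} [NormedAddCommGroup X] [NormedSpace ℝ X] {n k : ℕ}

/-- James systems `z, h` and biorthogonal families `x, Ξ` and `e, ξ` that do not see each other. -/
structure Frame (x : Fin n → X) (Ξ : Fin n → StrongDual ℝ X) (e : Fin n × ℕ → X)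
    (ξ : Fin n × ℕ → StrongDual ℝ X) (z : ℕ → Fin k → X)
    (h : Fin n × ℕ → Fin k → StrongDual ℝ X) (pos : Fin n × ℕ → ℕ) (K : ℝ) : Prop where
  bz : ∀ m i, ‖z m i‖ ≤ K
  bh : ∀ m i, ‖h m i‖ ≤ K
  be : ∀ m, ‖e m‖ ≤ K
  bξ : ∀ m, ‖ξ m‖ ≤ K
  xx : ∀ a b, Ξ a (x b) = if a = b then 1 else 0
  xe : ∀ a b, Ξ a (e b) = 0
  xz : ∀ a m i, Ξ a (z m i) = Ξ a (z 0 i)
  ex : ∀ a b, ξ a (x b) = 0
  ee : ∀ a b, ξ a (e b) = if a = b then 1 else 0
  ez : ∀ a m i, ξ a (z m i) = 0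
  hx : ∀ m i b, h m i (x b) = 0
  he : ∀ m i b, h m i (e b) = 0
  hz : ∀ m M i j, h m i (z M j) = if pos m ≤ M ∧ i = j then 1 else 0
  lim : ∀ q i v, Tendsto (fun m => h (q, m) i v) (hyperfilter ℕ) (𝓝 0)
  lime : ∀ q v, Tendsto (fun m => ξ (q, m) v) (hyperfilter ℕ) (𝓝 0)

theorem exists_frame (i₀ : Fin k) (n : ℕ) (y : Fin k → StrongDual ℝ (StrongDual ℝ X)) (K : ℝ)
    (H₀ : ∀ (m : ℕ) (v : Fin m × Fin k → X) i, ∃ g : StrongDual ℝ X, ‖g‖ ≤ K ∧
      (∀ p, g (v p) = 0) ∧ ∀ j, y j g = if i = j then 1 else 0) :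
    ∃ (x : Fin n → X) (Ξ : Fin n → StrongDual ℝ X) (e : Fin n × ℕ → X)
      (ξ : Fin n × ℕ → StrongDual ℝ X) (z : ℕ → Fin k → X)
      (h : Fin n × ℕ → Fin k → StrongDual ℝ X) (pos : Fin n × ℕ → ℕ) (K : ℝ),
      Frame x Ξ e ξ z h pos K := by
  obtain ⟨z, h, hz, hh, H⟩ := exists_raw y K H₀
  obtain ⟨pos, p1, p2⟩ : ∃ pos : Fin n × ℕ → ℕ, (∀ a b, a = b ↔ pos a = pos b) ∧
      ∀ q m, m ≤ pos (q, m) := ⟨fun a => Nat.pair a.1 a.2,
    fun a b => by simp [Prod.ext_iff, Fin.ext_iff], fun q m => Nat.right_le_pair _ _⟩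
  choose g g1 g2 using fun q r i => exists_wlim (hyperfilter ℕ)
    (fun m => h (2 * pos (q, m) + n + r) i) _ fun m => hh _ i
  have g3 : ∀ q r i M j, g q r i (z M j) = 0 := fun q r i M j => tendsto_nhds_unique (g2 q r i _)
    (tendsto_const_nhds.congr' (((eventually_gt_atTop M).filter_mono
      Nat.hyperfilter_le_atTop).mono fun m hm => by
        have := p2 q m
        simp only [H]
        rw [if_neg fun e => by omega]))
  have k0 : 0 ≤ K := (norm_nonneg _).trans (hh 0 i₀)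
  have k1 : ∀ m i, ‖z m i‖ ≤ ∑ i, (‖y i‖ + 1) := fun m i => (hz m i).trans
    (Finset.single_le_sum (f := fun i => ‖y i‖ + 1) (fun _ _ => by positivity) (Finset.mem_univ i))
  have k2 := (norm_nonneg _).trans (k1 0 i₀)
  have k3 : ∀ m q r i, ‖h m i - g q r i‖ ≤ K + K := fun m q r i =>
    (norm_sub_le _ _).trans (add_le_add (hh _ _) (g1 _ _ _))
  refine ⟨fun b => z (b + 1) i₀ - z b i₀, fun a => h (a + 1) i₀,
    fun b => z (2 * pos b + n + 2) i₀ - z (2 * pos b + n + 1) i₀,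
    fun a => h (2 * pos a + n + 2) i₀ - g a.1 2 i₀ - (h (2 * pos a + n + 3) i₀ - g a.1 3 i₀),
    fun m => z (2 * m + n + 1), fun a i => h (2 * pos a + n + 1) i - g a.1 1 i, pos,
    2 * ∑ i, (‖y i‖ + 1) + 4 * K, fun m i => (k1 _ i).trans (by linarith),
    fun m i => (k3 _ _ _ _).trans (by linarith), fun m => (norm_sub_le _ _).trans ?_,
    fun m => (norm_sub_le _ _).trans ?_, fun a b => ?_, fun a b => ?_, fun a m i => ?_,
    fun a b => ?_, fun a b => ?_, fun a m i => ?_, fun m i b => ?_, fun m i b => ?_,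
    fun m M i j => ?_, fun q i v => ?_, fun q v => ?_⟩
  · linarith [add_le_add (k1 (2 * pos m + n + 2) i₀) (k1 (2 * pos m + n + 1) i₀)]
  · linarith [add_le_add (k3 (2 * pos m + n + 2) m.1 2 i₀) (k3 (2 * pos m + n + 3) m.1 3 i₀)]
  · simp only [map_sub, H, and_true, Fin.ext_iff]
    split_ifs <;> first | omega | simp
  · have := a.2
    simp only [map_sub, H, and_true]
    split_ifs <;> first | omega | simp
  · have := a.2
    simp only [H, show a + 1 ≤ 2 * m + n + 1 by omega, show a + 1 ≤ 2 * 0 + n + 1 by omega]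
  · have := b.2
    simp only [sub_apply, map_sub, H, g3, sub_zero, and_true]
    split_ifs <;> first | omega | simp
  · simp only [sub_apply, map_sub, H, g3, sub_zero, and_true, p1]
    split_ifs <;> first | omega | simp
  · simp only [sub_apply, H, g3, sub_zero]
    split_ifs <;> first | omega | simp
  · have := b.2
    simp only [sub_apply, map_sub, H, g3, sub_zero]
    split_ifs <;> first | omega | simp
  · simp only [sub_apply, map_sub, H, g3, sub_zero]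
    split_ifs <;> first | omega | simp
  · simp only [sub_apply, H, g3, sub_zero]
    split_ifs <;> first | omega | simp
  · simpa only [sub_apply, sub_self] using (g2 q 1 i v).sub_const (g q 1 i v)
  · simpa only [sub_apply, sub_self] using
      ((g2 q 2 i₀ v).sub_const (g q 2 i₀ v)).sub ((g2 q 3 i₀ v).sub_const (g q 3 i₀ v))

theorem low {x : Fin n → X} {Ξ : Fin n → StrongDual ℝ X} {e : Fin n × ℕ → X}
    {ξ : Fin n × ℕ → StrongDual ℝ X} {z : ℕ → Fin k → X}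
    {h : Fin n × ℕ → Fin k → StrongDual ℝ X} {pos : Fin n × ℕ → ℕ} {K : ℝ}
    (F : Frame x Ξ e ξ z h pos K) {a c : Fin n → Fin k → ℝ} {φ : Fin n → Fin n → ℝ}
    (l0 : ∀ p q, |φ p q| ≤ 1) (l1 : ∀ p q, |φ p q + ∑ i, c p i * a q i| ≤ 1) {μ : Fin n → ℝ}
    (μ0 : ∀ p, 0 ≤ μ p) (can : ∀ q i, ∑ p, μ p * (φ p q * a p i) = 0) : ∃ N : Seminorm ℝ X,
      (∃ s t : ℝ, 0 < s ∧ 0 < t ∧ ∀ v : X, s * ‖v‖ ≤ N v ∧ N v ≤ t * ‖v‖) ∧
      ∀ (Z : Type v) [NormedAddCommGroup Z] [NormedSpace ℝ Z]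
        (T : X ≃ₗ[ℝ] StrongDual ℝ Z) (s t : ℝ),
        (∀ v : X, ‖T v‖ ≤ s * N v) → (∀ v : X, N v ≤ t * ‖T v‖) →
        ∑ q, μ q * (1 + ∑ i, c q i * a q i) ≤ ∑ q, μ q * (s * t) := by
  obtain ⟨f, hf⟩ : ∃ f : Fin n × ℕ → StrongDual ℝ X, ∀ k, f k =
      ∑ i, c k.1 i • h k i + (∑ q, φ k.1 q • Ξ q) - (1 + φ k.1 k.1) • ξ k := ⟨_, fun _ => rfl⟩
  have hf' : ∀ k v, f k v = ∑ i, c k.1 i * h k i v + ∑ q, φ k.1 q * Ξ q v -
      (1 + φ k.1 k.1) * ξ k v := fun k v => by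
    simp only [hf, add_apply, sub_apply, sum_apply, smul_apply, smul_eq_mul]
  obtain ⟨B, B0, hB⟩ : ∃ B : NNReal, 0 < (B : ℝ) ∧ ∀ k, ‖f k‖ ≤ B := by
    obtain ⟨B, hB⟩ := Finite.exists_le fun p =>
      ∑ i, |c p i| * K + ‖∑ q, φ p q • Ξ q‖ + |1 + φ p p| * K
    refine ⟨⟨max B 1, by positivity⟩, lt_max_of_lt_right one_pos, fun k => ?_⟩
    refine le_max_of_le_left (le_trans ?_ (hB k.1))
    rw [hf]
    refine (norm_sub_le _ _).trans (add_le_add ((norm_add_le _ _).trans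
      (add_le_add_left (norm_sum_le_of_le _ fun i _ => ?_) _)) ?_) <;> rw [norm_smul]
    · exact mul_le_mul_of_nonneg_left (F.bh _ _) (norm_nonneg _)
    · exact mul_le_mul_of_nonneg_left (F.bξ _) (norm_nonneg _)
  obtain ⟨G, hG⟩ : ∃ G : Fin n × ℕ → (Fin k → X) → X,
      ∀ q w, G q w = x q.1 + e q + ∑ j, a q.1 j • (w j - z (pos q) j) := ⟨_, fun _ _ => rfl⟩
  obtain ⟨R, R0, hR⟩ : ∃ R : NNReal, 0 < (R : ℝ) ∧ ∀ q M, ‖G q (z M)‖ ≤ R := by
    obtain ⟨B, hB⟩ := Finite.exists_le fun q => ‖x q‖ + K + ∑ j, |a q j| * (K + K)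
    refine ⟨⟨max B 1, by positivity⟩, lt_max_of_lt_right one_pos, fun q M => ?_⟩
    refine le_max_of_le_left (le_trans ?_ (hB q.1))
    rw [hG]
    refine (norm_add_le _ _).trans (add_le_add ((norm_add_le _ _).trans
      (add_le_add_right (F.be _) _)) (norm_sum_le_of_le _ fun i _ => ?_))
    rw [norm_smul]
    exact mul_le_mul_of_nonneg_left ((norm_sub_le _ _).trans (add_le_add (F.bz _ _) (F.bz _ _)))
      (norm_nonneg _)
  have e1 : ∀ p q w, f p (G q w) =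
      ∑ i, ∑ j, c p.1 i * a q.1 j * (h p i (w j) - h p i (z (pos q) j)) + φ p.1 q.1 +
      ∑ r, ∑ j, φ p.1 r * a q.1 j * (Ξ r (w j) - Ξ r (z 0 j)) -
      (1 + φ p.1 p.1) * ((if p = q then 1 else 0) + ∑ j, a q.1 j * ξ p (w j)) := fun p q w => by
    rw [hf']
    congr 1
    · simp only [hG, map_add, map_sum, map_smul, map_sub, smul_eq_mul, F.hx, F.he, F.xx, F.xe,
        zero_add, mul_add, Finset.sum_add_distrib, mul_ite, mul_one, mul_zero,
        Finset.sum_ite_eq', Finset.mem_univ, if_true, F.xz _ (pos q), Finset.mul_sum, mul_assoc,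
        add_assoc]
    · simp only [hG, map_add, map_sum, map_smul, map_sub, smul_eq_mul, F.ex, F.ee, F.ez, zero_add,
        sub_zero]
  have e2 : ∀ p q M, pos q ≤ M → |f p (G q (z M))| ≤ 1 := fun p q M hm => by
    rw [e1]
    by_cases h0 : p = q
    · simp [F.hz, F.xz _ M, F.ez, h0, hm]
    by_cases h1 : pos p ≤ pos q
    · simpa [F.hz, F.xz _ M, F.ez, h0, h1, h1.trans hm] using l0 p.1 q.1
    by_cases h2 : pos p ≤ M
    · simpa [F.hz, F.xz _ M, F.ez, h0, h1, h2, add_comm] using l1 p.1 q.1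
    · simpa [F.hz, F.xz _ M, F.ez, h0, h1, h2] using l0 p.1 q.1
  let p : Fin n × ℕ → Seminorm ℝ X := fun k => (normSeminorm ℝ ℝ).comp (f k).toLinearMap
  have hp : ∀ k v, p k v ≤ B * ‖v‖ := fun k v =>
    ((f k).le_opNorm v).trans (mul_le_mul_of_nonneg_right (hB k) (norm_nonneg _))
  have hbdd : BddAbove (Set.range p) := ⟨B • normSeminorm ℝ X, by
    rintro _ ⟨k, rfl⟩ v
    exact hp k v⟩
  obtain ⟨N, hN⟩ : ∃ N : Seminorm ℝ X, ∀ v, N v = max ((R : ℝ)⁻¹ * ‖v‖) (⨆ k, p k v) :=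
    ⟨R⁻¹ • normSeminorm ℝ X ⊔ ⨆ k, p k, fun v => by
      rw [Seminorm.sup_apply, Seminorm.iSup_apply hbdd]
      rfl⟩
  have n1 : ∀ v, (R : ℝ)⁻¹ * ‖v‖ ≤ N v := fun v => (hN v).ge.trans' (le_max_left _ _)
  have n2 : ∀ k v, |f k v| ≤ N v := fun k v => (hN v).ge.trans' (le_max_of_le_right
    (le_ciSup (f := fun k => p k v) ⟨B * ‖v‖, by rintro _ ⟨k, rfl⟩; exact hp k v⟩ k))
  have n3 : ∀ v, N v ≤ ((R : ℝ)⁻¹ + B) * ‖v‖ := fun v => by
    have := mul_nonneg B0.le (norm_nonneg v)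
    have := mul_nonneg (inv_pos.2 R0).le (norm_nonneg v)
    rw [hN, add_mul]
    exact max_le (by linarith) (Real.iSup_le (fun k => (hp k v).trans (by linarith)) (by linarith))
  have n4 : ∀ q M, pos q ≤ M → N (G q (z M)) ≤ 1 := fun q M hm => by
    rw [hN]
    exact max_le ((inv_mul_le_iff₀ R0).2 ((hR q M).trans_eq (mul_one _).symm))
      (Real.iSup_le (fun k => e2 k q M hm) zero_le_one)
  refine ⟨N, ⟨_, _, inv_pos.2 R0, by positivity, fun v => ⟨n1 v, n3 v⟩⟩,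
    fun Z _ _ T s t hs ht => ?_⟩
  rcases isEmpty_or_nonempty (Fin n) with _ | ⟨⟨q₀⟩⟩
  · simp
  have x0 : x q₀ ≠ 0 := fun e => by simpa [e] using F.xx q₀ q₀
  have N0 := (mul_pos (inv_pos.2 R0) (norm_pos_iff.2 x0)).trans_le (n1 _)
  have T0 : 0 < ‖T (x q₀)‖ := norm_pos_iff.2 fun e => x0 (T.map_eq_zero_iff.1 e)
  have s0 : 0 < s := (mul_pos_iff_of_pos_right N0).1 (T0.trans_le (hs _))
  have t0 : 0 < t := (mul_pos_iff_of_pos_right T0).1 (N0.trans_le (ht _))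
  choose w _ hw using fun j => exists_wlim (hyperfilter ℕ) (fun M => T (z M j))
    (s * (((R : ℝ)⁻¹ + B) * K)) fun M => (hs _).trans (mul_le_mul_of_nonneg_left ((n3 _).trans
      (mul_le_mul_of_nonneg_left (F.bz M j) (by positivity))) s0.le)
  have g1 : ∀ q, N (G q fun j => T.symm (w j)) ≤ s * t := fun q => by
    refine (ht _).trans ((mul_le_mul_of_nonneg_left ?_ t0.le).trans_eq (mul_comm t s))
    refine ContinuousLinearMap.opNorm_le_bound _ s0.le fun y => ?_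
    have h1 : Tendsto (fun M => T (G q (z M)) y) (hyperfilter ℕ)
        (𝓝 (T (G q fun j => T.symm (w j)) y)) := by
      simp only [hG, map_add, map_sum, map_smul, map_sub, add_apply, sum_apply,
        smul_apply, sub_apply, smul_eq_mul, T.apply_symm_apply]
      exact tendsto_const_nhds.add (tendsto_finsetSum _ fun j _ =>
        ((hw j y).sub_const _).const_mul _)
    refine le_of_tendsto h1.norm (((eventually_ge_atTop (pos q)).filter_mono
      Nat.hyperfilter_le_atTop).mono fun M hM => ((T _).le_opNorm y).trans ?_)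
    exact mul_le_mul_of_nonneg_right ((hs _).trans
      (mul_le_of_le_one_right s0.le (n4 q M hM))) (norm_nonneg _)
  have g2 : ∀ q, 1 + ∑ i, c q i * a q i ≤
      s * t + ∑ r, ∑ j, φ q r * a q j * (Ξ r (T.symm (w j)) - Ξ r (z 0 j)) := fun q => by
    have h1 : Tendsto (fun m => f (q, m) (G (q, m) fun j => T.symm (w j))) (hyperfilter ℕ)
        (𝓝 (∑ i, ∑ j, c q i * a q j * (0 - if i = j then 1 else 0) + φ q q +
          ∑ r, ∑ j, φ q r * a q j * (Ξ r (T.symm (w j)) - Ξ r (z 0 j)) -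
          (1 + φ q q) * (1 + ∑ j, a q j * 0))) := by
      simp only [e1, F.hz, le_refl, true_and, if_true]
      exact (((tendsto_finsetSum _ fun i _ => tendsto_finsetSum _ fun j _ =>
        ((F.lim q i _).sub_const _).const_mul _).add_const _).add_const _).sub
        (((tendsto_finsetSum _ fun j _ => (F.lime q _).const_mul _).const_add _).const_mul _)
    have h2 := ge_of_tendsto' h1 fun m => (abs_le.1 ((n2 _ _).trans (g1 (q, m)))).1
    simp only [zero_sub, mul_neg, mul_ite, mul_one, mul_zero, Finset.sum_neg_distrib,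
      Finset.sum_ite_eq, Finset.mem_univ, if_true, Finset.sum_const_zero, add_zero] at h2
    linarith
  have g3 : ∑ q, μ q * ∑ r, ∑ j, φ q r * a q j * (Ξ r (T.symm (w j)) - Ξ r (z 0 j)) = 0 := by
    simp only [Finset.mul_sum]
    rw [Finset.sum_comm]
    refine Finset.sum_eq_zero fun r _ => ?_
    rw [Finset.sum_comm]
    exact Finset.sum_eq_zero fun j _ => by
      simp only [← mul_assoc (μ _) (_ * _)]
      rw [← Finset.sum_mul, can, zero_mul]
  have := Finset.sum_le_sum fun q (_ : q ∈ Finset.univ) => mul_le_mul_of_nonneg_left (g2 q) (μ0 q)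
  simpa only [mul_add (μ _) (s * t), Finset.sum_add_distrib, g3, add_zero] using this

/-- The lower bound from a design. -/
theorem Att.low [CompleteSpace X] {D : ℝ} (hA : Att n D)
    [FiniteDimensional ℝ (StrongDual ℝ (StrongDual ℝ X) ⧸
      LinearMap.range (NormedSpace.inclusionInDoubleDual ℝ X).toLinearMap)]
    (hn : n ≤ Module.finrank ℝ (StrongDual ℝ (StrongDual ℝ X) ⧸
      LinearMap.range (NormedSpace.inclusionInDoubleDual ℝ X).toLinearMap)) :
    ∃ N : Seminorm ℝ X,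
      (∃ s t : ℝ, 0 < s ∧ 0 < t ∧ ∀ v : X, s * ‖v‖ ≤ N v ∧ N v ≤ t * ‖v‖) ∧
      ∀ (Z : Type v) [NormedAddCommGroup Z] [NormedSpace ℝ Z]
        (T : X ≃ₗ[ℝ] StrongDual ℝ Z) (s t : ℝ),
        (∀ v : X, ‖T v‖ ≤ s * N v) → (∀ v : X, N v ≤ t * ‖T v‖) → 1 + D ≤ s * t := by
  obtain ⟨m, k, μ, ψ, a, c, k0, hk, μ0, d, μ1, hv⟩ := hA
  obtain ⟨y, K, H⟩ := exists_bi _
    (isClosed_range_li (NormedSpace.inclusionInDoubleDual ℝ X).toLinearMap norm_incl) (hk.trans hn)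
  obtain ⟨x, Ξ, e, ξ, z, g, pos, K', F⟩ := exists_frame ⟨0, k0⟩ m y K fun m v i =>
    H m (fun p => NormedSpace.inclusionInDoubleDual ℝ X (v p)) i fun p => ⟨v p, rfl⟩
  have h1 : ∀ p (u : ℝ), μ p * ((μ p)⁻¹ * u) = u := fun p u => mul_inv_cancel_left₀ (μ0 p).ne' u
  have h2 : ∀ p (u : ℝ), |u| ≤ μ p → |(μ p)⁻¹ * u| ≤ 1 := fun p u hu => by
    rwa [abs_mul, abs_of_pos (inv_pos.2 (μ0 p)), inv_mul_le_iff₀ (μ0 p), mul_one]
  obtain ⟨N, hN, h⟩ := Q4.low.{v} F (a := a) (c := fun p i => (μ p)⁻¹ * c p i)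
    (φ := fun p q => (μ p)⁻¹ * ψ p q) (fun p q => h2 p _ (d.l0 p q))
    (fun p q => by simpa only [mul_add, Finset.mul_sum, mul_assoc] using h2 p _ (d.l1 p q))
    (fun p => (μ0 p).le) fun q i => by simpa only [mul_assoc, h1] using d.can q i
  refine ⟨N, hN, fun Z _ _ T s t hs ht => le_of_mul_le_mul_left ?_ μ1⟩
  have := h Z T s t hs ht
  simp only [mul_add, mul_one, Finset.mul_sum, mul_assoc, h1, Finset.sum_add_distrib,
    ← Finset.sum_mul] at this
  linarith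

end Pool.Agent.Lib.MP_a66ead_an.Q4
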